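import Pool.Agent.Lib.MP_3dbc4a_an_W.Defs

/-!
# MP_3dbc4a_an, project W, block I: barrier lemma
-/

set_option autoImplicit false

open Filter Set
open scoped Topology

namespace Pool.Agent.WildW

private theorem barr_b : b = 1 / 2 ^ 100 := rfl

private theorem barr_num {A B c x y x1 x2 y1 y2 : ℝ} (hA : 0 ≤ A) (hB : 0 ≤ B) (hc : 0 ≤ c)
    (hx : 0 ≤ x) (hy : 0 ≤ y) (hx1 : x1 = x * (1 / 2 ^ 119)) (hx2 : x2 = x * (1 / 2 ^ 238))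
    (hy1 : y1 = y * (1 / 2 ^ 19)) (hy2 : y2 = y * (1 / 2 ^ 38)) :
    7 / 10 / 2 ^ 19 * (A * x2 + B * y + c + b * (A * x + B * y2 + c) + c) ≤
      8 / 10 * (A * x1 + B * y1 + c) := by
  rw [hx1, hx2, hy1, hy2, barr_b]
  have h1 : 0 ≤ A * x := mul_nonneg hA hx
  have h2 : 0 ≤ B * y := mul_nonneg hB hy
  have k1 : (7 : ℝ) / 10 / 2 ^ 19 * (1 / 2 ^ 238 + 1 / 2 ^ 100) * (A * x) ≤
      8 / 10 * (1 / 2 ^ 119) * (A * x) :=
    mul_le_mul_of_nonneg_right (by norm_num) h1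
  have k2 : (7 : ℝ) / 10 / 2 ^ 19 * (1 + 1 / 2 ^ 100 * (1 / 2 ^ 38)) * (B * y) ≤
      8 / 10 * (1 / 2 ^ 19) * (B * y) :=
    mul_le_mul_of_nonneg_right (by norm_num) h2
  have k3 : (7 : ℝ) / 10 / 2 ^ 19 * (2 + 1 / 2 ^ 100) * c ≤ 8 / 10 * c :=
    mul_le_mul_of_nonneg_right (by norm_num) hc
  calc 7 / 10 / 2 ^ 19 * (A * (x * (1 / 2 ^ 238)) + B * y + c +
        1 / 2 ^ 100 * (A * x + B * (y * (1 / 2 ^ 38)) + c) + c)
      = 7 / 10 / 2 ^ 19 * (1 / 2 ^ 238 + 1 / 2 ^ 100) * (A * x) +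
        7 / 10 / 2 ^ 19 * (1 + 1 / 2 ^ 100 * (1 / 2 ^ 38)) * (B * y) +
        7 / 10 / 2 ^ 19 * (2 + 1 / 2 ^ 100) * c := by ring
    _ ≤ 8 / 10 * (1 / 2 ^ 119) * (A * x) + 8 / 10 * (1 / 2 ^ 19) * (B * y) + 8 / 10 * c :=
      add_le_add (add_le_add k1 k2) k3
    _ = 8 / 10 * (A * (x * (1 / 2 ^ 119)) + B * (y * (1 / 2 ^ 19)) + c) := by ring

private theorem barr_fin {e w e1 w1 e2 w2 c : ℝ} (hw : 0 ≤ w) (hd : 0 < e - w)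
    (h1 : e1 - w1 ≤ e - w) (h2 : e2 - w2 ≤ e - w)
    (h3 : e ≤ 7 / 10 / 2 ^ 19 * (e1 + b * e2 + c))
    (h4 : 7 / 10 / 2 ^ 19 * (w1 + b * w2 + c) ≤ 8 / 10 * w) : False := by
  rw [barr_b] at h3 h4
  have k1 : (7 : ℝ) / 10 / 2 ^ 19 * (e1 + 1 / 2 ^ 100 * e2 + c) ≤
      7 / 10 / 2 ^ 19 * (w1 + (e - w) + 1 / 2 ^ 100 * (w2 + (e - w)) + c) := by
    refine mul_le_mul_of_nonneg_left ?_ (by norm_num)
    have k2 : (1 : ℝ) / 2 ^ 100 * e2 ≤ 1 / 2 ^ 100 * (w2 + (e - w)) :=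
      mul_le_mul_of_nonneg_left (by linarith) (by norm_num)
    linarith
  have k3 : (7 : ℝ) / 10 / 2 ^ 19 * (w1 + (e - w) + 1 / 2 ^ 100 * (w2 + (e - w)) + c) =
      7 / 10 / 2 ^ 19 * (w1 + 1 / 2 ^ 100 * w2 + c) +
        7 / 10 / 2 ^ 19 * (1 + 1 / 2 ^ 100) * (e - w) := by ring
  have k4 : (7 : ℝ) / 10 / 2 ^ 19 * (1 + 1 / 2 ^ 100) * (e - w) ≤ 1 / 2 * (e - w) :=
    mul_le_mul_of_nonneg_right (by norm_num) hd.le
  rw [k3] at k1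
  linarith

/-- **I3** barrier lemma. Proof. `W m` = right side; `7/10/2^19 (W (m+1) + b W (m-1) + c) < W m`
or `W m = 0`-free version: for `N₁ < m < N₂`,
`7/10/2^19 (W (m+1) + b W (m-1) + c) ≤ 8/10 W m`
(`A`-part: `W (m+1) = 2^-119 W m`, `b W (m-1) = b 2^119 W m = 2^19 W m`; `B`-part:
`W (m+1) = 2^19 W m`, `b W (m-1) = b 2^-19 W m`; constant: `7/10/2^19 (2 + b) c ≤ c/2`).
Let `m` maximize `E m - W m` on the finite interval `[N₁, N₂]` (or: the ratio); if it were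
positive, `m` is interior and `E m ≤ 7/10/2^19 (E (m+1) + b E (m-1) + c)
≤ 7/10/2^19 (W (m+1) + b W (m-1) + c) + (E m - W m)/2 ≤ 8/10 W m + (E m - W m)/2`,
a contradiction. -/
theorem barrier {E : ℤ → ℝ} {N₁ N₂ : ℤ} {A B c : ℝ} (hA : 0 ≤ A) (hB : 0 ≤ B) (hc : 0 ≤ c)
    (hE : ∀ m, 0 ≤ E m)
    (hI : ∀ m, N₁ < m → m < N₂ → E m ≤ 7 / 10 / 2 ^ 19 * (E (m + 1) + b * E (m - 1) + c))
    (h1 : E N₁ ≤ A) (h2 : E N₂ ≤ B) {m : ℤ} (hm1 : N₁ ≤ m) (hm2 : m ≤ N₂) :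
    E m ≤ A * (1 / 2 ^ 119) ^ (m - N₁).toNat + B * (1 / 2 ^ 19) ^ (N₂ - m).toNat + c := by
  obtain ⟨W, hW⟩ : ∃ W : ℤ → ℝ, ∀ m, W m = A * (1 / 2 ^ 119) ^ (m - N₁).toNat +
      B * (1 / 2 ^ 19) ^ (N₂ - m).toNat + c := ⟨fun m => _, fun m => rfl⟩
  have hW0 : ∀ m, 0 ≤ W m := by
    intro m
    rw [hW]
    positivity
  have hWs : ∀ m, N₁ < m → m < N₂ →
      7 / 10 / 2 ^ 19 * (W (m + 1) + b * W (m - 1) + c) ≤ 8 / 10 * W m := by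
    intro m h3 h4
    obtain ⟨k, hk⟩ : ∃ k : ℕ, (m - N₁).toNat = k + 1 := ⟨(m - N₁).toNat - 1, by omega⟩
    obtain ⟨j, hj⟩ : ∃ j : ℕ, (N₂ - m).toNat = j + 1 := ⟨(N₂ - m).toNat - 1, by omega⟩
    have e1 : (m + 1 - N₁).toNat = k + 2 := by omega
    have e2 : (m - 1 - N₁).toNat = k := by omega
    have e3 : (N₂ - (m + 1)).toNat = j := by omega
    have e4 : (N₂ - (m - 1)).toNat = j + 2 := by omega
    rw [hW, hW, hW, hk, hj, e1, e2, e3, e4]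
    exact barr_num hA hB hc (pow_nonneg (by norm_num) k) (pow_nonneg (by norm_num) j)
      (by ring) (by ring) (by ring) (by ring)
  obtain ⟨n, hn, hmax⟩ := Finset.exists_max_image (Finset.Icc N₁ N₂) (fun m => E m - W m)
    ⟨m, Finset.mem_Icc.2 ⟨hm1, hm2⟩⟩
  have hn' := Finset.mem_Icc.1 hn
  have hmm := hmax m (Finset.mem_Icc.2 ⟨hm1, hm2⟩)
  rw [← hW]
  by_contra hcon
  have hd : 0 < E n - W n := by linarith [not_le.1 hcon]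
  have hA2 : A ≤ W N₁ := by
    rw [hW, sub_self, Int.toNat_zero, pow_zero, mul_one]
    have h5 : 0 ≤ B * (1 / 2 ^ 19) ^ (N₂ - N₁).toNat := by positivity
    linarith
  have hB2 : B ≤ W N₂ := by
    rw [hW, sub_self, Int.toNat_zero, pow_zero, mul_one]
    have h5 : 0 ≤ A * (1 / 2 ^ 119) ^ (N₂ - N₁).toNat := by positivity
    linarith
  have hn1 : N₁ < n := by
    refine lt_of_le_of_ne hn'.1 fun h5 => ?_
    rw [← h5] at hd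
    linarith
  have hn2 : n < N₂ := by
    refine lt_of_le_of_ne hn'.2 fun h5 => ?_
    rw [h5] at hd
    linarith
  have h5 := hmax (n + 1) (Finset.mem_Icc.2 ⟨by omega, by omega⟩)
  have h6 := hmax (n - 1) (Finset.mem_Icc.2 ⟨by omega, by omega⟩)
  have h7 := hI n hn1 hn2
  have h8 := hWs n hn1 hn2
  exact barr_fin (hW0 n) hd h5 h6 h7 h8

end Pool.Agent.WildW
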