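import Pool.Agent.Lib.MP_3dbc4a_an_WI.Dep

/-!
# MP_3dbc4a_an, project W, block I: dependence of the residual
-/

set_option autoImplicit false

open Filter Set
open scoped Topology

namespace Pool.Agent.WildW

private theorem phiD_cube {a a' : Fin 8 → ℝ} (ha : Cube a) (ha' : Cube a') :
    dist a a' ≤ 1 / 4 := by
  rw [dist_pi_le_iff (by norm_num)]
  intro i
  have h1 := abs_le.1 (ha i)
  have h2 := abs_le.1 (ha' i)
  rw [Real.dist_eq, abs_le]
  constructor <;> linarith

/-- **I7** dependence of the residual at a fold. Proof. With `x = xs F a s`, `x' = xs F a' s'`,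
`Φ - Φ' - (a i - a' i) = (P_a x_n - P_a x'_n) + (P_a x'_n - P_{a'} x'_n - (a i - a' i)) - b Δ_{n-1} - Δ_{n+1}`;
`|P_a x_n - P_a x'_n| ≤ |Δ_n|` since `P1` between two points of the fold window with
`|P1_a x_n| ≤ 2^-117` (`fox`, `rb`, `tb`) and `|P1_a x'_n| ≤ 2^-117 + eps * dist a a'` (`pa1`) is at most `1` (MVT for
`P` and monotonicity of `P1`), second bracket `≤ eps * dist a a'` (`pf0`), and `dep` at `n` (`u, v`), at `n + 1`
(`u + 1`, `v - 1`; for `v = 0` use `Ed ≤ 4`) and at `n - 1` (`u - 1`, `v + 1`; for `u = 0` use `Ed ≤ 4`). -/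
theorem Phi_dep (F : Fam) {a a' : Fin 8 → ℝ} (ha : Cube a) (ha' : Cube a') {s s' : ℤ → Sym}
    (hs : Adm s) (hs' : Adm s') {n : ℤ} {i : Fin 8} (hi : s n = .d i) {u v : ℕ}
    (hag : ∀ m, n - u ≤ m → m ≤ n + v → s m = s' m) :
    |Phi F a s n - Phi F a' s' n - (a i - a' i)| ≤
      10 * (1 / 2 ^ 119) ^ u + 10 * (1 / 2 ^ 19) ^ v + 4 * eps * dist a a' := by
  have hx := isSol_sol F ha hs
  have hx' := isSol_sol F ha' hs'
  have hE := Ed_le_four F hs hs' hx hx'
  have hi' : s' n = .d i := by rw [← hag n (by omega) (by omega), hi]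
  have hb := b_pos
  have hb1 := b_lt_one
  set c := eps * dist a a' with hc
  have hc0 : 0 ≤ c := mul_nonneg eps_pos.le dist_nonneg
  set x := xs F a s with hxd
  set x' := xs F a' s' with hxd'
  set al : ℝ := (1 / 2 ^ 119) ^ u with hal
  set be : ℝ := (1 / 2 ^ 19) ^ v with hbe
  have hal0 : 0 < al := by positivity
  have hbe0 : 0 < be := by positivity
  -- the three differences
  have d0 : |x n - x' n| ≤ 4 * (al * (1 / 2 ^ 119)) + 4 * (be * (1 / 2 ^ 19)) + c := by
    have := (le_max_left _ _).trans (dep F ha ha' hs hs' (n := n) (u := u) (v := v) hag)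
    rwa [pow_succ, pow_succ] at this
  have d1 : |x (n + 1) - x' (n + 1)| ≤ 4 * (al * (1 / 2 ^ 119)) + 4 * be + c := by
    rcases Nat.eq_zero_or_pos v with hv | hv
    · have h1 := (le_max_left _ _).trans (hE (n + 1)).2
      have h2 : be = 1 := by rw [hbe, hv, pow_zero]
      rw [h2]
      have : 0 ≤ 4 * (al * (1 / 2 ^ 119)) := by positivity
      linarith
    · have h1 := (le_max_left _ _).trans (dep F ha ha' hs hs' (n := n + 1) (u := u + 1)
        (v := v - 1) (fun m h1 h2 ↦ hag m (by push_cast at h1; omega) (by omega)))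
      rw [show v - 1 + 1 = v by omega] at h1
      have h2 : ((1 : ℝ) / 2 ^ 119) ^ (u + 1 + 1) ≤ al * (1 / 2 ^ 119) := by
        rw [pow_succ, pow_succ]
        exact mul_le_of_le_one_right (by positivity) (by norm_num)
      linarith
  have d2 : |x (n - 1) - x' (n - 1)| ≤ 4 * al + 4 * (be * (1 / 2 ^ 19)) + c := by
    rcases Nat.eq_zero_or_pos u with hv | hv
    · have h1 := (le_max_left _ _).trans (hE (n - 1)).2
      have h2 : al = 1 := by rw [hal, hv, pow_zero]
      rw [h2]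
      have : 0 ≤ 4 * (be * (1 / 2 ^ 19)) := by positivity
      linarith
    · have h1 := (le_max_left _ _).trans (dep F ha ha' hs hs' (n := n - 1) (u := u - 1)
        (v := v + 1) (fun m h1 h2 ↦ hag m (by omega) (by push_cast at h2; omega)))
      rw [show u - 1 + 1 = u by omega] at h1
      have h2 : ((1 : ℝ) / 2 ^ 19) ^ (v + 1 + 1) ≤ be * (1 / 2 ^ 19) := by
        rw [pow_succ, pow_succ]
        exact mul_le_of_le_one_right (by positivity) (by norm_num)
      linarith
  -- the derivative at the two points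
  have hW := hx.foW n i hi
  have hW' := hx'.foW n i hi'
  have hq19 : (1 : ℝ) / 2 ^ 19 ≤ 1 / 4 := by norm_num
  have g1 : |F.P1 a (x n)| ≤ 1 / 2 := by
    rw [hx.fox n i hi, abs_le]
    have r1 := hx.rb (n + 1)
    have r2 := hx.tb (n - 1)
    have r3 : 0 ≤ rs F a s (n + 1) + ts F a s (n - 1) := by linarith [r1.1, r2.1]
    have r4 : rs F a s (n + 1) + ts F a s (n - 1) ≤ 1 / 2 := by linarith [r1.2, r2.2]
    constructor
    · nlinarith
    · nlinarith
  have g2 : |F.P1 a' (x' n)| ≤ 1 / 2 := by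
    rw [hx'.fox n i hi', abs_le]
    have r1 := hx'.rb (n + 1)
    have r2 := hx'.tb (n - 1)
    have r3 : 0 ≤ rs F a' s' (n + 1) + ts F a' s' (n - 1) := by linarith [r1.1, r2.1]
    have r4 : rs F a' s' (n + 1) + ts F a' s' (n - 1) ≤ 1 / 2 := by linarith [r1.2, r2.2]
    constructor
    · nlinarith
    · nlinarith
  have g3 : |F.P1 a (x' n)| ≤ 1 := by
    have r1 := F.pa1 a a' ha ha' (.d i) (x' n) (IB.W_sub_Wp _ hW')
    have r2 := phiD_cube ha ha'
    have r3 : c ≤ 1 * (1 / 4) := mul_le_mul IB.eps_le_one r2 dist_nonneg zero_le_one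
    have r4 := abs_le.1 r1
    have r5 := abs_le.1 g2
    rw [abs_le]
    constructor <;> linarith
  obtain ⟨q, q1, q2, q3⟩ := IB.dd_fo F ha i hW hW'
  have g4 : |q| ≤ 1 := by
    have r1 := abs_le.1 g1
    have r2 := abs_le.1 g3
    rw [abs_le]
    constructor
    · have : -1 ≤ min (F.P1 a (x n)) (F.P1 a (x' n)) := le_min (by linarith) r2.1
      linarith
    · have : max (F.P1 a (x n)) (F.P1 a (x' n)) ≤ 1 := max_le (by linarith) r2.2
      linarith
  have g5 : |F.P a (x n) - F.P a (x' n)| ≤ |x n - x' n| := by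
    rw [q1, abs_mul]
    exact mul_le_of_le_one_left (abs_nonneg _) g4
  have g6 := F.pf0 a a' ha ha' i (x' n) (IB.W_sub_Wp _ hW')
  have g7 : Phi F a s n - Phi F a' s' n - (a i - a' i) = (F.P a (x n) - F.P a (x' n)) +
      (F.P a (x' n) - F.P a' (x' n) - (a i - a' i)) - b * (x (n - 1) - x' (n - 1)) -
      (x (n + 1) - x' (n + 1)) := by
    unfold Phi
    ring
  rw [g7]
  have t1 := abs_sub ((F.P a (x n) - F.P a (x' n)) +
    (F.P a (x' n) - F.P a' (x' n) - (a i - a' i)) - b * (x (n - 1) - x' (n - 1)))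
    (x (n + 1) - x' (n + 1))
  have t2 := abs_sub ((F.P a (x n) - F.P a (x' n)) +
    (F.P a (x' n) - F.P a' (x' n) - (a i - a' i))) (b * (x (n - 1) - x' (n - 1)))
  have t3 := abs_add_le (F.P a (x n) - F.P a (x' n))
    (F.P a (x' n) - F.P a' (x' n) - (a i - a' i))
  have t4 : |b * (x (n - 1) - x' (n - 1))| ≤ 1 / 4 * (4 * al + 4 * (be * (1 / 2 ^ 19)) + c) := by
    rw [abs_mul, abs_of_pos hb]
    have : b ≤ 1 / 4 := by
      unfold b
      norm_num
    exact mul_le_mul this d2 (abs_nonneg _) (by norm_num)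
  have t5 : al * (1 / 2 ^ 119) ≤ al * (1 / 4) := mul_le_mul_of_nonneg_left (by norm_num) hal0.le
  have t6 : be * (1 / 2 ^ 19) ≤ be * (1 / 4) := mul_le_mul_of_nonneg_left (by norm_num) hbe0.le
  have t7 : 4 * eps * dist a a' = 4 * c := by rw [hc]; ring
  rw [t7]
  linarith

/-- the residual vanishes at plain letters (`plx`) -/
theorem Phi_plain (F : Fam) {a : Fin 8 → ℝ} (ha : Cube a) {s : ℤ → Sym} (hs : Adm s) {n : ℤ}
    {c : Pl} (hc : s n = .p c) : Phi F a s n = 0 := by
  unfold Phi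
  rw [(isSol_sol F ha hs).plx n c hc]
  ring

end Pool.Agent.WildW
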