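import Pool.Agent.Lib.MP_3dbc4a_an_WI.Mvt

/-!
# MP_3dbc4a_an, project W, block I: inverse branches of the derivative at the folds
-/

set_option autoImplicit false

open Filter Set
open scoped Topology

namespace Pool.Agent.WildW

/-- Inverse branch of `P1` at a fold: `P1` is strictly decreasing on the window (slope at most
`-2^21 + eps`), `P1(lo) ≥ 2^14 - eps`, `P1(hi) ≤ -2^14 + eps` (`fo1` at `cc i ∓ 1/128`).
`inv w` = the preimage of `w` clamped to `[P1(hi), P1(lo)]`. -/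
theorem exists_invF (F : Fam) {a : Fin 8 → ℝ} (ha : Cube a) (i : Fin 8) :
    ∃ inv : ℝ → ℝ, (∀ w, inv w ∈ (Lt.d i).W) ∧ (∀ w, |w| ≤ 1 → F.P1 a (inv w) = w) ∧
      ∀ w w', |inv w - inv w'| ≤ |w - w'| / 2 ^ 20 := by
  have he := IB.eps_le_one
  have hlh := Lt.lo_lt_hi (.d i)
  have hlo : (Lt.d i).lo ∈ (Lt.d i).W := left_mem_Icc.2 hlh.le
  have hhi : (Lt.d i).hi ∈ (Lt.d i).W := right_mem_Icc.2 hlh.le
  have hP1 : 1 ≤ F.P1 a (Lt.d i).lo := by
    have h1 := (abs_le.1 (F.fo1 a ha i _ (IB.W_sub_Wp _ hlo))).1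
    have h2 : (Lt.d i).lo - cc i = -(1 / 128) := by
      show cc i - 1 / 128 - cc i = _
      ring
    rw [h2] at h1
    norm_num at h1 ⊢
    linarith
  have hP2 : F.P1 a (Lt.d i).hi ≤ -1 := by
    have h1 := (abs_le.1 (F.fo1 a ha i _ (IB.W_sub_Wp _ hhi))).2
    have h2 : (Lt.d i).hi - cc i = 1 / 128 := by
      show cc i + 1 / 128 - cc i = _
      ring
    rw [h2] at h1
    norm_num at h1 ⊢
    linarith
  have hcont : ContinuousOn (F.P1 a) (Icc (Lt.d i).lo (Lt.d i).hi) := fun x _ =>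
    (F.hP1 a x).continuousAt.continuousWithinAt
  have hex : ∀ w : ℝ, ∃ x ∈ (Lt.d i).W, F.P1 a x = max (-1) (min 1 w) := by
    intro w
    have h1 := intermediate_value_Icc' hlh.le hcont
    have h2 : max (-1) (min 1 w) ∈ Icc (F.P1 a (Lt.d i).hi) (F.P1 a (Lt.d i).lo) :=
      ⟨hP2.trans (le_max_left _ _), (max_le (by norm_num) (min_le_left _ _)).trans hP1⟩
    obtain ⟨x, hx, hx2⟩ := h1 h2
    exact ⟨x, hx, hx2⟩
  choose inv hinv hval using hex
  refine ⟨inv, hinv, fun w hw => ?_, fun w w' => ?_⟩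
  · rw [hval, min_eq_right (abs_le.1 hw).2, max_eq_right (abs_le.1 hw).1]
  · have h1 := IB.fo_slope F ha i (hinv w) (hinv w')
    rw [hval, hval] at h1
    have h2 : |max (-1) (min 1 w) - max (-1) (min 1 w')| ≤ |w - w'| := by
      refine (abs_max_sub_max_le_max _ _ _ _).trans ?_
      rw [sub_self, abs_zero, max_eq_right (abs_nonneg _)]
      refine (abs_min_sub_min_le_max _ _ _ _).trans ?_
      rw [sub_self, abs_zero, max_eq_right (abs_nonneg _)]
    have h3 : (2 : ℝ) ^ 20 * |inv w - inv w'| ≤ (2 ^ 21 - eps) * |inv w - inv w'| := by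
      refine mul_le_mul_of_nonneg_right ?_ (abs_nonneg _)
      norm_num
      linarith
    rw [le_div_iff₀ (by positivity), mul_comm]
    linarith

end Pool.Agent.WildW
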