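import Pool.Agent.Lib.MP_3dbc4a_an_WI.Mvt

/-!
# MP_3dbc4a_an, project W, block I: inverse branches of the plain letters
-/

set_option autoImplicit false

open Filter Set
open scoped Topology

namespace Pool.Agent.WildW

private theorem brp_nums : eps ≤ 1 ∧ eps ≤ b / 2 ∧ 0 < b ∧ b < 1 := by
  have h1 := b_pos
  refine ⟨IB.eps_le_one, ?_, h1, b_lt_one⟩
  refine eps_le_b.trans ?_
  exact div_le_div_of_nonneg_left h1.le (by norm_num) (le_self_pow₀ (by norm_num) (by norm_num))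

private theorem brp_ends (F : Fam) {a : Fin 8 → ℝ} (ha : Cube a) (c : Pl) :
    F.P a (Lt.p c).lo ≤ c.bs - b / 2 ∧ 3 + 7 / 2 * b ≤ F.P a (Lt.p c).hi := by
  obtain ⟨-, h2, h3, h4⟩ := brp_nums
  have hlo : (Lt.p c).lo ∈ (Lt.p c).W := left_mem_Icc.2 (Lt.lo_lt_hi _).le
  have hhi : (Lt.p c).hi ∈ (Lt.p c).W := right_mem_Icc.2 (Lt.lo_lt_hi _).le
  have h5 := abs_le.1 (F.pl0 a ha c _ (IB.W_sub_Wp _ hlo))
  have h6 := abs_le.1 (F.pl0 a ha c _ (IB.W_sub_Wp _ hhi))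
  have h7 : c.aff (Lt.p c).lo = c.bs - b := c.aff_lo
  have h8 : c.aff (Lt.p c).hi = 3 + 4 * b := c.aff_hi
  rw [h7] at h5
  rw [h8] at h6
  constructor
  · linarith [h5.2]
  · linarith [h6.1]

/-- Inverse branch of a plain letter: `P_a` is strictly increasing on the window (slope at least
`3*2^18 - eps`), `P_a(lo) ≤ bs - b + eps`, `P_a(hi) ≥ 3 + 4b - eps` (`Pl.aff_lo`, `Pl.aff_hi`).
`inv v` = the preimage of `v` clamped to `[P_a(lo), P_a(hi)]` (IVT, choice). -/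
theorem exists_invP (F : Fam) {a : Fin 8 → ℝ} (ha : Cube a) (c : Pl) :
    ∃ inv : ℝ → ℝ, (∀ v, inv v ∈ (Lt.p c).W) ∧
      (∀ v, c.bs - b / 2 ≤ v → v ≤ 3 + 7 / 2 * b → F.P a (inv v) = v) ∧
      ∀ v v', |inv v - inv v'| ≤ |v - v'| / (3 * 2 ^ 18 - 1) := by
  obtain ⟨h1, h2, h3, h4⟩ := brp_nums
  obtain ⟨hA, hB⟩ := brp_ends F ha c
  have hbs := c.bs_le
  have hAB : F.P a (Lt.p c).lo ≤ F.P a (Lt.p c).hi := by linarith
  have hcont : ContinuousOn (F.P a) (Icc (Lt.p c).lo (Lt.p c).hi) :=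
    fun x _ => (F.hP a x).continuousAt.continuousWithinAt
  have hivt : ∀ w ∈ Icc (F.P a (Lt.p c).lo) (F.P a (Lt.p c).hi), ∃ x ∈ (Lt.p c).W,
      F.P a x = w := by
    intro w hw
    obtain ⟨x, hx, hx2⟩ := intermediate_value_Icc (Lt.lo_lt_hi (Lt.p c)).le hcont hw
    exact ⟨x, hx, hx2⟩
  choose! g hgW hgP using hivt
  refine ⟨fun v => g (projIcc _ _ hAB v), fun v => hgW _ (projIcc _ _ hAB v).2, ?_, ?_⟩
  · intro v hv1 hv2
    have hv : v ∈ Icc (F.P a (Lt.p c).lo) (F.P a (Lt.p c).hi) := ⟨by linarith, by linarith⟩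
    show F.P a (g (projIcc _ _ hAB v)) = v
    rw [hgP _ (projIcc _ _ hAB v).2, projIcc_of_mem hAB hv]
  · intro v v'
    show |g (projIcc _ _ hAB v) - g (projIcc _ _ hAB v')| ≤ |v - v'| / (3 * 2 ^ 18 - 1)
    set x := g (projIcc _ _ hAB v) with hx
    set y := g (projIcc _ _ hAB v') with hy
    have hxW : x ∈ (Lt.p c).W := hgW _ (projIcc _ _ hAB v).2
    have hyW : y ∈ (Lt.p c).W := hgW _ (projIcc _ _ hAB v').2
    have hxP : F.P a x = projIcc _ _ hAB v := hgP _ (projIcc _ _ hAB v).2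
    have hyP : F.P a y = projIcc _ _ hAB v' := hgP _ (projIcc _ _ hAB v').2
    obtain ⟨q, hq1, -, hq2⟩ := IB.dd_pl F ha c hxW hyW
    have hpr : |F.P a x - F.P a y| ≤ |v - v'| := by
      rw [hxP, hyP]
      exact abs_projIcc_sub_projIcc hAB
    have hsl := c.sl_lo
    have hq3 := (abs_le.1 hq2).1
    have hq4 : (3 * 2 ^ 18 - 1 : ℝ) ≤ q := by linarith
    have hpos : (0 : ℝ) < 3 * 2 ^ 18 - 1 := by norm_num
    rw [le_div_iff₀ hpos]
    have hq5 : |q * (x - y)| = q * |x - y| := by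
      rw [abs_mul, abs_of_pos (lt_of_lt_of_le hpos hq4)]
    rw [hq1, hq5] at hpr
    calc |x - y| * (3 * 2 ^ 18 - 1) ≤ |x - y| * q :=
          mul_le_mul_of_nonneg_left hq4 (abs_nonneg _)
      _ = q * |x - y| := mul_comm _ _
      _ ≤ |v - v'| := hpr

end Pool.Agent.WildW
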