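import Pool.Agent.Lib.MP_3dbc4a_an_WI.Uniq

/-!
# MP_3dbc4a_an, project W, block I: dependence on the word and the parameter
-/

set_option autoImplicit false

open Filter Set
open scoped Topology

namespace Pool.Agent.WildW

/-- **I5** dependence, two-sided window (`barrier` with `N₁ = n - u - 1`, `N₂ = n + v + 1`, `A = B = 4`,
`c = eps * dist a a'`). -/
theorem dep (F : Fam) {a a' : Fin 8 → ℝ} (ha : Cube a) (ha' : Cube a') {s s' : ℤ → Sym}
    (hs : Adm s) (hs' : Adm s') {n : ℤ} {u v : ℕ}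
    (hag : ∀ m, n - u ≤ m → m ≤ n + v → s m = s' m) :
    Ed (xs F a s) (rs F a s) (ts F a s) (xs F a' s') (rs F a' s') (ts F a' s') n ≤
      4 * (1 / 2 ^ 119) ^ (u + 1) + 4 * (1 / 2 ^ 19) ^ (v + 1) + eps * dist a a' := by
  have hx := isSol_sol F ha hs
  have hx' := isSol_sol F ha' hs'
  have hE := Ed_le_four F hs hs' hx hx'
  have h1 := barrier (E := Ed (xs F a s) (rs F a s) (ts F a s) (xs F a' s') (rs F a' s')
    (ts F a' s')) (N₁ := n - u - 1) (N₂ := n + v + 1) (A := 4) (B := 4) (c := eps * dist a a')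
    (by norm_num) (by norm_num) (mul_nonneg eps_pos.le dist_nonneg) (fun m ↦ (hE m).1)
    (fun m h1 h2 ↦ main_ineq F ha ha' hx hx' (hag m (by omega) (by omega))) (hE _).2 (hE _).2
    (m := n) (by omega) (by omega)
  have e1 : (n - (n - u - 1)).toNat = u + 1 := by omega
  have e2 : (n + v + 1 - n).toNat = v + 1 := by omega
  rwa [e1, e2] at h1

/-- **I5'** dependence, half line to the left. -/
theorem dep_left (F : Fam) {a a' : Fin 8 → ℝ} (ha : Cube a) (ha' : Cube a') {s s' : ℤ → Sym}
    (hs : Adm s) (hs' : Adm s') {n : ℤ} {v : ℕ} (hag : ∀ m, m ≤ n + v → s m = s' m) :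
    Ed (xs F a s) (rs F a s) (ts F a s) (xs F a' s') (rs F a' s') (ts F a' s') n ≤
      4 * (1 / 2 ^ 19) ^ (v + 1) + eps * dist a a' := by
  have hx := isSol_sol F ha hs
  have hx' := isSol_sol F ha' hs'
  have hE := Ed_le_four F hs hs' hx hx'
  have h1 := barrier_left (E := Ed (xs F a s) (rs F a s) (ts F a s) (xs F a' s') (rs F a' s')
    (ts F a' s')) (N₂ := n + v + 1) (B := 4) (c := eps * dist a a') (K := 4)
    (by norm_num) (mul_nonneg eps_pos.le dist_nonneg) (fun m ↦ (hE m).1) (fun m ↦ (hE m).2)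
    (fun m h2 ↦ main_ineq F ha ha' hx hx' (hag m (by omega))) (hE _).2
    (m := n) (by omega)
  have e2 : (n + v + 1 - n).toNat = v + 1 := by omega
  rwa [e2] at h1

/-- **I5''** dependence, half line to the right. -/
theorem dep_right (F : Fam) {a a' : Fin 8 → ℝ} (ha : Cube a) (ha' : Cube a') {s s' : ℤ → Sym}
    (hs : Adm s) (hs' : Adm s') {n : ℤ} {u : ℕ} (hag : ∀ m, n - u ≤ m → s m = s' m) :
    Ed (xs F a s) (rs F a s) (ts F a s) (xs F a' s') (rs F a' s') (ts F a' s') n ≤
      4 * (1 / 2 ^ 119) ^ (u + 1) + eps * dist a a' := by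
  have hx := isSol_sol F ha hs
  have hx' := isSol_sol F ha' hs'
  have hE := Ed_le_four F hs hs' hx hx'
  have h1 := barrier_right (E := Ed (xs F a s) (rs F a s) (ts F a s) (xs F a' s') (rs F a' s')
    (ts F a' s')) (N₁ := n - u - 1) (A := 4) (c := eps * dist a a') (K := 4)
    (by norm_num) (mul_nonneg eps_pos.le dist_nonneg) (fun m ↦ (hE m).1) (fun m ↦ (hE m).2)
    (fun m h2 ↦ main_ineq F ha ha' hx hx' (hag m (by omega))) (hE _).2
    (m := n) (by omega)
  have e1 : (n - (n - u - 1)).toNat = u + 1 := by omega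
  rwa [e1] at h1

/-- **I6** shift (the shifted solution solves the shifted word; `sol_unique`). -/
theorem xs_shift (F : Fam) {a : Fin 8 → ℝ} (ha : Cube a) {s : ℤ → Sym} (hs : Adm s) (m n : ℤ) :
    xs F a (shiftW s m) n = xs F a s (n + m) ∧ rs F a (shiftW s m) n = rs F a s (n + m) ∧
      ts F a (shiftW s m) n = ts F a s (n + m) := by
  have hx := isSol_sol F ha hs
  have hsh : Adm (shiftW s m) := by
    refine ⟨fun k j hk ↦ ?_, fun k v hk ↦ hs.2 (k + m) v hk⟩
    have := hs.1 (k + m) j hk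
    have e1 : shiftW s m (k + 1) = s (k + m + 1) := by
      unfold shiftW
      congr 1
      ring
    rw [e1]
    exact this
  have e2 : ∀ k : ℤ, k + 1 + m = k + m + 1 := fun k ↦ by ring
  have e3 : ∀ k : ℤ, k - 1 + m = k + m - 1 := fun k ↦ by ring
  have hy : IsSol F a (shiftW s m) (fun n ↦ xs F a s (n + m)) (fun n ↦ rs F a s (n + m))
      (fun n ↦ ts F a s (n + m)) :=
    { plW := fun k c hk ↦ hx.plW (k + m) c hk
      plx := fun k c hk ↦ by
        simp only [e2, e3]
        exact hx.plx (k + m) c hk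
      plr := fun k c hk ↦ by
        simp only [e2]
        exact hx.plr (k + m) c hk
      plt := fun k c hk ↦ by
        simp only [e3]
        exact hx.plt (k + m) c hk
      foW := fun k c hk ↦ hx.foW (k + m) c hk
      fox := fun k c hk ↦ by
        simp only [e2, e3]
        exact hx.fox (k + m) c hk
      fort := fun k c hk ↦ hx.fort (k + m) c hk
      pin := fun k c hk ↦ hx.pin (k + m) c hk
      rb := fun k ↦ hx.rb (k + m)
      tb := fun k ↦ hx.tb (k + m) }
  obtain ⟨h1, h2, h3⟩ := sol_unique F ha hsh hy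
  exact ⟨(congrFun h1 n).symm, (congrFun h2 n).symm, (congrFun h3 n).symm⟩

end Pool.Agent.WildW
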