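import Mathlib

/-!
# MP_3dbc4a_an, project W, block I: fixed points of contractions of bounded sequences
-/

set_option autoImplicit false

open Filter Set
open scoped Topology

namespace Pool.Agent.WildW

/-- A map of sequences with bounded values which halves uniform distances has a fixed point.
Proof. `X_{k+1} = T X_k`, `X_0 = 0`: `‖X_{k+1} n - X_k n‖ ≤ C 2^{-k}` for all `n` (`k ≥ 0`; for
`k = 0` `‖T 0 n‖ ≤ C`), so the sequence converges for every `n`, uniformly:
`‖X_k n - X n‖ ≤ 2 C 2^{-k}`;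
then `‖T X n - X_{k+1} n‖ ≤ C 2^{-k}`, hence `T X = X`. -/
theorem fixed_point {V : Type*} [NormedAddCommGroup V] [CompleteSpace V]
    (T : (ℤ → V) → (ℤ → V)) {C : ℝ} (hC : ∀ X n, ‖T X n‖ ≤ C)
    (hL : ∀ X Y : ℤ → V, ∀ D : ℝ, (∀ n, ‖X n - Y n‖ ≤ D) → ∀ n, ‖T X n - T Y n‖ ≤ D / 2) :
    ∃ X, T X = X := by
  classical
  let B := BoundedContinuousFunction ℤ V
  let S : B → B := fun X =>
    BoundedContinuousFunction.ofNormedAddCommGroupDiscrete (T X) C (hC X)
  have hS : ContractingWith (1 / 2 : NNReal) S := by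
    refine ⟨by rw [div_lt_one (by norm_num)]; norm_num, ?_⟩
    refine LipschitzWith.of_dist_le_mul fun X Y => ?_
    have hd : (0 : ℝ) ≤ dist X Y := dist_nonneg
    have h0 : (0 : ℝ) ≤ ((1 / 2 : NNReal) : ℝ) * dist X Y := mul_nonneg (NNReal.coe_nonneg _) hd
    rw [BoundedContinuousFunction.dist_le h0]
    intro n
    have h1 := hL X Y (dist X Y) (fun m => by
      rw [← dist_eq_norm]; exact BoundedContinuousFunction.dist_coe_le_dist m) n
    rw [dist_eq_norm]
    have h2 : ((1 / 2 : NNReal) : ℝ) * dist X Y = dist X Y / 2 := by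
      push_cast; ring
    rw [h2]
    exact h1
  have : Nonempty B := ⟨0⟩
  refine ⟨(hS.fixedPoint S : B), ?_⟩
  have h := hS.fixedPoint_isFixedPt
  have h3 : S (hS.fixedPoint S) = hS.fixedPoint S := h
  funext n
  have h4 := congrArg (fun X : B => X n) h3
  exact h4

end Pool.Agent.WildW
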