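import Pool.Agent.Lib.MP_3dbc4a_an_WI.BrF
import Pool.Agent.Lib.MP_3dbc4a_an_WI.BrP
import Pool.Agent.Lib.MP_3dbc4a_an_WI.FP
import Pool.Agent.Lib.MP_3dbc4a_an_WP.Win

/-!
# MP_3dbc4a_an, project W, block I: existence of the solution
-/

set_option autoImplicit false

open Filter Set
open scoped Topology

namespace Pool.Agent.WildW

/-- clamp to `[0, 1]` -/
private noncomputable def cl (r : ℝ) : ℝ := max 0 (min r 1)

private theorem cl_mem (r : ℝ) : 0 ≤ cl r ∧ cl r ≤ 1 :=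
  ⟨le_max_left _ _, max_le zero_le_one (min_le_right _ _)⟩

private theorem cl_eq {r : ℝ} (h0 : 0 ≤ r) (h1 : r ≤ 1) : cl r = r := by
  unfold cl
  rw [min_eq_left h1, max_eq_right h0]

private theorem cl_lip (r r' : ℝ) : |cl r - cl r'| ≤ |r - r'| := by
  unfold cl
  have h1 := abs_max_sub_max_le_abs (min r 1) (min r' 1) 0
  have h2 := abs_min_sub_min_le_max r 1 r' 1
  rw [sub_self, abs_zero, max_eq_left (abs_nonneg _)] at h2
  rw [max_comm 0, max_comm 0]
  exact h1.trans h2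

private theorem inv_diff {A A' D : ℝ} (hA : 2 ≤ A) (hA' : 2 ≤ A') (h : |A' - A| ≤ 2 * D) :
    |1 / A - 1 / A'| ≤ D / 2 := by
  have h1 : 1 / A - 1 / A' = (A' - A) / (A * A') := by
    have h2 : A ≠ 0 := by linarith
    have h3 : A' ≠ 0 := by linarith
    field_simp
  have h4 : 4 ≤ A * A' := by nlinarith
  have h5 : 0 < A * A' := by linarith
  rw [h1, abs_div, abs_of_pos h5, div_le_iff₀ h5]
  have h6 : 0 ≤ D := by
    have := abs_nonneg (A' - A)
    linarith
  have h7 : D / 2 * 4 ≤ D / 2 * (A * A') := mul_le_mul_of_nonneg_left h4 (by linarith)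
  linarith

/-- the clamped map -/
private noncomputable def Tm (F : Fam) (a : Fin 8 → ℝ) (s : ℤ → Sym) (ip : Pl → ℝ → ℝ)
    (jf : Fin 8 → ℝ → ℝ) (X : ℤ → ℝ × ℝ × ℝ) : ℤ → ℝ × ℝ × ℝ := fun n =>
  match s n with
  | .p c => (ip c ((X (n + 1)).1 + b * (X (n - 1)).1),
      1 / (F.P1 a (ip c ((X (n + 1)).1 + b * (X (n - 1)).1)) - b * cl (X (n + 1)).2.1),
      1 / (F.P1 a (ip c ((X (n + 1)).1 + b * (X (n - 1)).1)) - b * cl (X (n - 1)).2.2))
  | .d i => (jf i (b * (cl (X (n + 1)).2.1 + cl (X (n - 1)).2.2)), 0, 0)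
  | .pin v => (max (-4) (min v 4), 0, 0)

private theorem ex_norm {x r t C : ℝ} (h1 : |x| ≤ C) (h2 : |r| ≤ C) (h3 : |t| ≤ C) :
    ‖((x, r, t) : ℝ × ℝ × ℝ)‖ ≤ C := by
  rw [Prod.norm_def, Prod.norm_def]
  exact max_le h1 (max_le h2 h3)

private theorem ex_comp {X : ℝ × ℝ × ℝ} {C : ℝ} (h : ‖X‖ ≤ C) :
    |X.1| ≤ C ∧ |X.2.1| ≤ C ∧ |X.2.2| ≤ C := by
  rw [Prod.norm_def, Prod.norm_def] at h
  refine ⟨(le_max_left _ _).trans h, ?_, ?_⟩
  · exact (le_max_left _ _).trans ((le_max_right _ _).trans h)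
  · exact (le_max_right _ _).trans ((le_max_right _ _).trans h)

private theorem ex_h : 0 < h ∧ h ≤ 1 / 64 ∧ 2 ^ 20 * h ≤ b ∧ 0 < b ∧ b ≤ 1 / 64 := by
  refine ⟨h_pos, h_hi.trans (by norm_num), mul_h_le_b, b_pos, ?_⟩
  rw [b_eq]
  norm_num

/-- the slope of the denominators -/
private theorem ex_den (F : Fam) {a : Fin 8 → ℝ} (ha : Cube a) (c : Pl) {x r : ℝ}
    (hx : x ∈ (Lt.p c).W) (hr : 0 ≤ r ∧ r ≤ 1) : 2 ^ 19 ≤ F.P1 a x - b * r := by
  have h1 := (abs_le.1 (F.pl1 a ha c x (IB.W_sub_Wp _ hx))).1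
  have h2 := c.sl_lo
  have h3 := IB.eps_le_one
  obtain ⟨-, -, -, h4, h5⟩ := ex_h
  have h6 : b * r ≤ 1 * 1 := mul_le_mul (by linarith) hr.2 hr.1 zero_le_one
  have h7 : (2 : ℝ) ^ 19 ≤ 3 * 2 ^ 18 - 2 := by norm_num
  linarith

private theorem ex_W (c : Lt) {x : ℝ} (hx : x ∈ c.W) : -(4 * h) ≤ x ∧ x ≤ 3 - 11 * h :=
  Wp_sub c (IB.W_sub_Wp c hx)

private theorem ex_W4 (c : Lt) {x : ℝ} (hx : x ∈ c.W) : |x| ≤ 4 := by
  obtain ⟨h1, h2⟩ := ex_W c hx
  obtain ⟨h3, h4, -⟩ := ex_h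
  rw [abs_le]
  constructor <;> linarith

/-- **I1** existence. Proof. Choose `invP c`, `invF i` (`exists_invP`, `exists_invF`), clamp
`cl r = max 0 (min r 1)`. On `ℤ → ℝ × ℝ × ℝ` (sup norm) put `T (x, r, t) n = (x', r', t')` with
* `s n = .p c`: `x' = invP c (x (n+1) + b * x (n-1))`, `r' = 1 / (P1 a x' - b * cl (r (n+1)))`,
  `t' = 1 / (P1 a x' - b * cl (t (n-1)))`;
* `s n = .d i`: `x' = invF i (b * (cl (r (n+1)) + cl (t (n-1))))`, `r' = t' = 0`;
* `s n = .pin v`: `(v clamped to [-4, 4], 0, 0)`.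
`‖T X n‖ ≤ 4`; the distances are halved (`|Δx'| ≤ (1+b)/(3*2^18-1) D`, `|Δr'| ≤ 2^-38 (eps |Δx'| + b D)`;
`P1 ≥ 3*2^18 - eps` on the windows). For the fixed point: all `x n` are in `[-4h, 3 + h]` (windows and
`Adm`; `Wp_sub`), so the arguments of `invP` are in `[bs - b/2, 3 + 7/2 b]` (for a letter `f` use that the
next symbol is `f`, `g` or a pin `≥ 2 - 2h`: its value is `≥ 2 - 2h`), `r, t ∈ [0, 2^-19]`, no clamp is
active. -/
theorem exists_sol (F : Fam) {a : Fin 8 → ℝ} (ha : Cube a) {s : ℤ → Sym} (hs : Adm s) :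
    ∃ x r t : ℤ → ℝ, IsSol F a s x r t := by
  choose ip hp1 hp2 hp3 using fun c => exists_invP F ha c
  choose jf hf1 hf2 hf3 using fun i => exists_invF F ha i
  obtain ⟨n1, n2, n3, n4, n5⟩ := ex_h
  have Tp : ∀ (X : ℤ → ℝ × ℝ × ℝ) (n : ℤ) (c : Pl), s n = .p c → Tm F a s ip jf X n =
      (ip c ((X (n + 1)).1 + b * (X (n - 1)).1),
      1 / (F.P1 a (ip c ((X (n + 1)).1 + b * (X (n - 1)).1)) - b * cl (X (n + 1)).2.1),
      1 / (F.P1 a (ip c ((X (n + 1)).1 + b * (X (n - 1)).1)) - b * cl (X (n - 1)).2.2)) := by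
    intro X n c hc
    simp only [Tm, hc]
  have Td : ∀ (X : ℤ → ℝ × ℝ × ℝ) (n : ℤ) (i : Fin 8), s n = .d i → Tm F a s ip jf X n =
      (jf i (b * (cl (X (n + 1)).2.1 + cl (X (n - 1)).2.2)), 0, 0) := by
    intro X n c hc
    simp only [Tm, hc]
  have Tv : ∀ (X : ℤ → ℝ × ℝ × ℝ) (n : ℤ) (v : ℝ), s n = .pin v → Tm F a s ip jf X n =
      (max (-4) (min v 4), 0, 0) := by
    intro X n c hc
    simp only [Tm, hc]
  have hinv : ∀ A : ℝ, 2 ^ 19 ≤ A → 0 ≤ 1 / A ∧ 1 / A ≤ 1 / 2 ^ 19 := by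
    intro A hA
    have h0 : (0 : ℝ) < 2 ^ 19 := by positivity
    exact ⟨div_nonneg zero_le_one (h0.le.trans hA), one_div_le_one_div_of_le h0 hA⟩
  obtain ⟨X, hX⟩ := fixed_point (Tm F a s ip jf) (C := 4) (by
    intro X n
    rcases hc : s n with c | i | v
    · rw [Tp X n c hc]
      have e1 := hinv _ (ex_den F ha c (hp1 c ((X (n + 1)).1 + b * (X (n - 1)).1))
        (cl_mem (X (n + 1)).2.1))
      have e2 := hinv _ (ex_den F ha c (hp1 c ((X (n + 1)).1 + b * (X (n - 1)).1))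
        (cl_mem (X (n - 1)).2.2))
      have e3 : (1 : ℝ) / 2 ^ 19 ≤ 4 := by norm_num
      refine ex_norm (ex_W4 _ (hp1 c _)) ?_ ?_
      · rw [abs_of_nonneg e1.1]
        exact e1.2.trans e3
      · rw [abs_of_nonneg e2.1]
        exact e2.2.trans e3
    · rw [Td X n i hc]
      refine ex_norm (ex_W4 _ (hf1 i _)) ?_ ?_ <;> norm_num
    · rw [Tv X n v hc]
      refine ex_norm ?_ (by norm_num) (by norm_num)
      rw [abs_le]
      exact ⟨le_max_left _ _, max_le (by norm_num) (min_le_right _ _)⟩) (by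
    intro X Y D hD n
    obtain ⟨u1, u2, -⟩ := ex_comp (hD (n + 1))
    obtain ⟨v1, -, v3⟩ := ex_comp (hD (n - 1))
    have hD0 : 0 ≤ D := (norm_nonneg _).trans (hD n)
    simp only [Prod.fst_sub, Prod.snd_sub] at u1 u2 v1 v3
    have c1 := (cl_lip _ _).trans u2
    have c2 := (cl_lip _ _).trans v3
    have hbD : b * D ≤ D := mul_le_of_le_one_left hD0 (by linarith)
    rcases hc : s n with c | i | v
    · rw [Tp X n c hc, Tp Y n c hc]
      have w1 := hp1 c ((X (n + 1)).1 + b * (X (n - 1)).1)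
      have w2 := hp1 c ((Y (n + 1)).1 + b * (Y (n - 1)).1)
      have w3 := hp3 c ((X (n + 1)).1 + b * (X (n - 1)).1) ((Y (n + 1)).1 + b * (Y (n - 1)).1)
      have e1 : |(X (n + 1)).1 + b * (X (n - 1)).1 - ((Y (n + 1)).1 + b * (Y (n - 1)).1)| ≤
          2 * D := by
        have h1 : (X (n + 1)).1 + b * (X (n - 1)).1 - ((Y (n + 1)).1 + b * (Y (n - 1)).1) =
            ((X (n + 1)).1 - (Y (n + 1)).1) + b * ((X (n - 1)).1 - (Y (n - 1)).1) := by ring
        rw [h1]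
        refine (abs_add_le _ _).trans ?_
        rw [abs_mul, abs_of_pos n4]
        have := mul_le_mul_of_nonneg_left v1 n4.le
        linarith
      generalize ip c ((X (n + 1)).1 + b * (X (n - 1)).1) = p at *
      generalize ip c ((Y (n + 1)).1 + b * (Y (n - 1)).1) = q at *
      have e2 : |p - q| ≤ D / 2 := by
        refine w3.trans ?_
        rw [div_le_iff₀ (by norm_num)]
        refine e1.trans ?_
        have h1 : (2 : ℝ) ≤ 1 / 2 * (3 * 2 ^ 18 - 1) := by norm_num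
        have := mul_le_mul_of_nonneg_right h1 hD0
        linarith
      obtain ⟨w, hw, hw2⟩ := IB.mvt_P1 F a p q
      have hwW : w ∈ (Lt.p c).W := IB.W_uIcc w1 w2 hw
      have d1 := F.pl2 a ha c w (IB.W_sub_Wp _ hwW)
      have e3 : |F.P1 a q - F.P1 a p| ≤ D := by
        rw [abs_sub_comm, hw2, abs_mul]
        have h1 : |F.P2 a w| * |p - q| ≤ 1 * (D / 2) :=
          mul_le_mul (d1.trans IB.eps_le_one) e2 (abs_nonneg _) zero_le_one
        linarith
      have e5 : (2 : ℝ) ≤ 2 ^ 19 := by norm_num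
      refine ex_norm e2 ?_ ?_
      · refine inv_diff (e5.trans (ex_den F ha c w1 (cl_mem _)))
          (e5.trans (ex_den F ha c w2 (cl_mem _))) ?_
        have h1 : F.P1 a q - b * cl (Y (n + 1)).2.1 - (F.P1 a p - b * cl (X (n + 1)).2.1) =
            (F.P1 a q - F.P1 a p) + b * (cl (X (n + 1)).2.1 - cl (Y (n + 1)).2.1) := by ring
        rw [h1]
        refine (abs_add_le _ _).trans ?_
        rw [abs_mul, abs_of_pos n4]
        have := mul_le_mul_of_nonneg_left c1 n4.le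
        linarith
      · refine inv_diff (e5.trans (ex_den F ha c w1 (cl_mem _)))
          (e5.trans (ex_den F ha c w2 (cl_mem _))) ?_
        have h1 : F.P1 a q - b * cl (Y (n - 1)).2.2 - (F.P1 a p - b * cl (X (n - 1)).2.2) =
            (F.P1 a q - F.P1 a p) + b * (cl (X (n - 1)).2.2 - cl (Y (n - 1)).2.2) := by ring
        rw [h1]
        refine (abs_add_le _ _).trans ?_
        rw [abs_mul, abs_of_pos n4]
        have := mul_le_mul_of_nonneg_left c2 n4.le
        linarith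
    · rw [Td X n i hc, Td Y n i hc]
      refine ex_norm ?_ (by simpa using by linarith) (by simpa using by linarith)
      refine (hf3 i _ _).trans ?_
      rw [← mul_sub, abs_mul, abs_of_pos n4]
      have h1 : cl (X (n + 1)).2.1 + cl (X (n - 1)).2.2 -
          (cl (Y (n + 1)).2.1 + cl (Y (n - 1)).2.2) =
          (cl (X (n + 1)).2.1 - cl (Y (n + 1)).2.1) +
            (cl (X (n - 1)).2.2 - cl (Y (n - 1)).2.2) := by ring
      rw [h1, div_le_iff₀ (by positivity)]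
      have h2 := mul_le_mul_of_nonneg_left ((abs_add_le _ _).trans (add_le_add c1 c2)) n4.le
      refine h2.trans ?_
      have h3 : (4 : ℝ) ≤ 2 ^ 20 := by norm_num
      have := mul_le_mul_of_nonneg_left h3 hD0
      linarith
    · rw [Tv X n v hc, Tv Y n v hc, sub_self, norm_zero]
      linarith)
  have hXn : ∀ n, X n = Tm F a s ip jf X n := fun n => congrFun hX.symm n
  -- positions
  have plW : ∀ n c, s n = .p c → (X n).1 ∈ (Lt.p c).W := by
    intro n c hc
    rw [hXn n, Tp X n c hc]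
    exact hp1 c _
  have foW : ∀ n i, s n = .d i → (X n).1 ∈ (Lt.d i).W := by
    intro n i hc
    rw [hXn n, Td X n i hc]
    exact hf1 i _
  have pinX : ∀ n v, s n = .pin v → (X n).1 = v ∧ (X n).2.1 = 0 ∧ (X n).2.2 = 0 := by
    intro n v hc
    have h1 := hs.2 n v hc
    rw [hXn n, Tv X n v hc]
    refine ⟨?_, rfl, rfl⟩
    show max (-4) (min v 4) = v
    rw [min_eq_left (by linarith), max_eq_right (by linarith)]
  have hb : ∀ n, -(4 * h) ≤ (X n).1 ∧ (X n).1 ≤ 3 + h := by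
    intro n
    rcases hc : s n with c | i | v
    · have := ex_W _ (plW n c hc)
      exact ⟨this.1, by linarith [this.2]⟩
    · have := ex_W _ (foW n i hc)
      exact ⟨this.1, by linarith [this.2]⟩
    · rw [(pinX n v hc).1]
      exact hs.2 n v hc
  have rb : ∀ n, 0 ≤ (X n).2.1 ∧ (X n).2.1 ≤ 1 / 2 ^ 19 := by
    intro n
    rcases hc : s n with c | i | v
    · rw [hXn n, Tp X n c hc]
      exact hinv _ (ex_den F ha c (hp1 c _) (cl_mem _))
    · rw [hXn n, Td X n i hc]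
      exact ⟨le_rfl, by positivity⟩
    · rw [(pinX n v hc).2.1]
      exact ⟨le_rfl, by positivity⟩
  have tb : ∀ n, 0 ≤ (X n).2.2 ∧ (X n).2.2 ≤ 1 / 2 ^ 19 := by
    intro n
    rcases hc : s n with c | i | v
    · rw [hXn n, Tp X n c hc]
      exact hinv _ (ex_den F ha c (hp1 c _) (cl_mem _))
    · rw [hXn n, Td X n i hc]
      exact ⟨le_rfl, by positivity⟩
    · rw [(pinX n v hc).2.2]
      exact ⟨le_rfl, by positivity⟩
  have e19 : (1 : ℝ) / 2 ^ 19 ≤ 1 / 2 := by norm_num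
  have clr : ∀ n, cl (X n).2.1 = (X n).2.1 := fun n => cl_eq (rb n).1 (by linarith [(rb n).2])
  have clt : ∀ n, cl (X n).2.2 = (X n).2.2 := fun n => cl_eq (tb n).1 (by linarith [(tb n).2])
  have comp : ∀ n c, s n = .p c → (X n).1 = ip c ((X (n + 1)).1 + b * (X (n - 1)).1) ∧
      (X n).2.1 * (F.P1 a (X n).1 - b * (X (n + 1)).2.1) = 1 ∧
      (X n).2.2 * (F.P1 a (X n).1 - b * (X (n - 1)).2.2) = 1 := by
    intro n c hc
    have h1 := hXn n
    rw [Tp X n c hc] at h1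
    have g1 := congrArg Prod.fst h1
    have g2 := congrArg (fun z => z.2.1) h1
    have g3 := congrArg (fun z => z.2.2) h1
    simp only at g1 g2 g3
    rw [← g1, clr] at g2
    rw [← g1, clt] at g3
    have k1 := ex_den F ha c (plW n c hc) (r := (X (n + 1)).2.1)
      ⟨(rb (n + 1)).1, by linarith [(rb (n + 1)).2]⟩
    have k2 := ex_den F ha c (plW n c hc) (r := (X (n - 1)).2.2)
      ⟨(tb (n - 1)).1, by linarith [(tb (n - 1)).2]⟩
    have k3 : (0 : ℝ) < 2 ^ 19 := by positivity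
    refine ⟨g1, ?_, ?_⟩
    · rw [g2]
      exact one_div_mul_cancel (ne_of_gt (lt_of_lt_of_le k3 k1))
    · rw [g3]
      exact one_div_mul_cancel (ne_of_gt (lt_of_lt_of_le k3 k2))
  have hf : ∀ n j, s n = .p (.f j) → 2 - 2 * h ≤ (X (n + 1)).1 := by
    intro n j hc
    rcases hs.1 n j hc with ⟨j', hj'⟩ | hg | ⟨v, hv, hv2⟩
    · have h1 := (plW _ _ hj').1
      have h2 : (Lt.p (.f j')).lo = 2 + (j' : ℕ) / 2 ^ 20 - h := lo_f j'
      rw [h2] at h1
      have h3 : (0 : ℝ) ≤ (j' : ℕ) / 2 ^ 20 := by positivity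
      linarith
    · have h1 := (plW _ _ hg).1
      have h2 : 2 + 1 / sg + 8 * h - h / 16 ≤ (Lt.p .g).lo := lo_g
      have h3 : 0 < 1 / sg := div_pos one_pos sg_pos
      linarith
    · rw [(pinX _ v hv).1]
      exact hv2
  refine ⟨fun n => (X n).1, fun n => (X n).2.1, fun n => (X n).2.2, plW, ?_, ?_, ?_, foW, ?_, ?_,
    pinX, rb, tb⟩
  · intro n c hc
    have h1 := (comp n c hc).1
    show F.P a (X n).1 = (X (n + 1)).1 + b * (X (n - 1)).1
    rw [h1]
    have h2 := hb (n + 1)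
    have h3 := hb (n - 1)
    have h4 : b * (X (n - 1)).1 ≤ b * (3 + h) := mul_le_mul_of_nonneg_left h3.2 n4.le
    have h5 : b * (-(4 * h)) ≤ b * (X (n - 1)).1 := mul_le_mul_of_nonneg_left h3.1 n4.le
    have h6 : b * h ≤ 1 * h := mul_le_mul_of_nonneg_right (by linarith) n1.le
    refine hp2 c _ ?_ ?_
    · cases c with
      | e c =>
        simp only [Pl.bs]
        linarith
      | f j =>
        have h7 := hf n j hc
        simp only [Pl.bs]
        linarith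
      | g =>
        simp only [Pl.bs]
        linarith
    · linarith
  · intro n c hc
    exact (comp n c hc).2.1
  · intro n c hc
    exact (comp n c hc).2.2
  · intro n i hc
    have h1 := hXn n
    rw [Td X n i hc] at h1
    have g1 := congrArg Prod.fst h1
    simp only at g1
    rw [clr, clt] at g1
    show F.P1 a (X n).1 = b * ((X (n + 1)).2.1 + (X (n - 1)).2.2)
    rw [g1]
    refine hf2 i _ ?_
    have k1 := rb (n + 1)
    have k2 := tb (n - 1)
    have k3 : 0 ≤ (X (n + 1)).2.1 + (X (n - 1)).2.2 := by linarith [k1.1, k2.1]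
    rw [abs_of_nonneg (mul_nonneg n4.le k3)]
    calc b * ((X (n + 1)).2.1 + (X (n - 1)).2.2) ≤ 1 * 1 :=
          mul_le_mul (by linarith) (by linarith [k1.2, k2.2]) k3 zero_le_one
      _ = 1 := one_mul 1
  · intro n i hc
    show (X n).2.1 = 0 ∧ (X n).2.2 = 0
    rw [hXn n, Td X n i hc]
    exact ⟨rfl, rfl⟩

end Pool.Agent.WildW
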