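import Pool.Agent.Lib.MP_3dbc4a_an_WI.Mvt

/-!
# MP_3dbc4a_an, project W, block I: main inequality
-/

set_option autoImplicit false

open Filter Set
open scoped Topology

namespace Pool.Agent.WildW

/-- difference of two solutions at `n` -/
noncomputable def Ed (x r t x' r' t' : ℤ → ℝ) (n : ℤ) : ℝ :=
  max |x n - x' n| (max |r n - r' n| |t n - t' n|)

private theorem ineq_frac {r r' A A' D M : ℝ} (hr0 : 0 ≤ r) (hr : r ≤ 1 / 2 ^ 19)
    (hr0' : 0 ≤ r') (hr' : r' ≤ 1 / 2 ^ 19) (h1 : r * A = 1) (h2 : r' * A' = 1)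
    (h3 : |A' - A| ≤ D) (h4 : D ≤ 3 * M) : |r - r'| ≤ 7 / 10 / 2 ^ 19 * M := by
  have e1 : r - r' = r * r' * (A' - A) := by linear_combination r' * h1 - r * h2
  have e2 : 0 ≤ r * r' := mul_nonneg hr0 hr0'
  have e3 : r * r' ≤ 1 / 2 ^ 19 * (1 / 2 ^ 19) := mul_le_mul hr hr' hr0' (by positivity)
  have e4 : 0 ≤ D := (abs_nonneg _).trans h3
  rw [e1, abs_mul, abs_of_nonneg e2]
  calc r * r' * |A' - A| ≤ 1 / 2 ^ 19 * (1 / 2 ^ 19) * D :=
        mul_le_mul e3 h3 (abs_nonneg _) (by positivity)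
    _ ≤ 1 / 2 ^ 19 * (1 / 2 ^ 19) * (3 * M) := mul_le_mul_of_nonneg_left h4 (by positivity)
    _ ≤ 7 / 10 / 2 ^ 19 * M := by
        have h5 : 0 ≤ M := by linarith
        have h6 : (1 : ℝ) / 2 ^ 19 * (1 / 2 ^ 19) * 3 ≤ 7 / 10 / 2 ^ 19 := by norm_num
        have := mul_le_mul_of_nonneg_right h6 h5
        linarith

private theorem ineq_fine {q D M : ℝ} (h1 : (3 * 2 ^ 18 - 1) * D ≤ M) (hM : 0 ≤ M) (hq : q = D) :
    q ≤ 7 / 10 / 2 ^ 19 * M := by
  subst hq
  have h2 : (3 * 2 ^ 18 - 1) * q ≤ (3 * 2 ^ 18 - 1) * (7 / 10 / 2 ^ 19 * M) := by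
    refine h1.trans ?_
    have h3 : (1 : ℝ) ≤ (3 * 2 ^ 18 - 1) * (7 / 10 / 2 ^ 19) := by norm_num
    have := mul_le_mul_of_nonneg_right h3 hM
    linarith
  exact le_of_mul_le_mul_left h2 (by norm_num)

/-- **I2** main inequality. Proof. Let `M = Ed (n+1) + b Ed (n-1) + eps δ`, `δ = dist a a'`.
Plain letter: `P_a x - P_a x' = (Δx (n+1) + b Δx (n-1)) - (P_a x' - P_{a'} x')`, so (`dd_pl`, `pa0`)
`|Δx| ≤ M / (3*2^18 - 1)`; `r n = 1/A`, `r' n = 1/A'`, `|Δr| = |A - A'| r r' ≤ 2^-38 (|P1_a x - P1_{a'} x'| +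
b Ed (n+1)) ≤ 2^-38 (eps |Δx| + eps δ + b Ed (n+1))`, the same for `t` with `b Ed (n-1)`.
Fold: `|Δx| ≤ (b Ed (n+1) + b Ed (n-1) + eps δ)/(2^21 - eps)` (`fo_slope`, `pa1`), `Δr = Δt = 0`.
Pin: all differences are `0`. -/
theorem main_ineq (F : Fam) {a a' : Fin 8 → ℝ} (ha : Cube a) (ha' : Cube a') {s s' : ℤ → Sym}
    {x r t x' r' t' : ℤ → ℝ} (hx : IsSol F a s x r t) (hx' : IsSol F a' s' x' r' t') {n : ℤ}
    (hn : s n = s' n) :
    Ed x r t x' r' t' n ≤ 7 / 10 / 2 ^ 19 *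
      (Ed x r t x' r' t' (n + 1) + b * Ed x r t x' r' t' (n - 1) + eps * dist a a') := by
  have hb0 := b_pos
  have hb1 := b_lt_one
  have he0 := eps_pos
  have he1 := IB.eps_le_one
  -- pieces of the two neighbours
  have u1 : |x (n + 1) - x' (n + 1)| ≤ Ed x r t x' r' t' (n + 1) := le_max_left _ _
  have u2 : |r (n + 1) - r' (n + 1)| ≤ Ed x r t x' r' t' (n + 1) :=
    (le_max_left _ _).trans (le_max_right _ _)
  have v1 : |x (n - 1) - x' (n - 1)| ≤ Ed x r t x' r' t' (n - 1) := le_max_left _ _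
  have v3 : |t (n - 1) - t' (n - 1)| ≤ Ed x r t x' r' t' (n - 1) :=
    (le_max_right _ _).trans (le_max_right _ _)
  have hE : 0 ≤ Ed x r t x' r' t' (n + 1) := (abs_nonneg _).trans u1
  have hE' : 0 ≤ Ed x r t x' r' t' (n - 1) := (abs_nonneg _).trans v1
  have hδ : 0 ≤ eps * dist a a' := mul_nonneg he0.le dist_nonneg
  show max |x n - x' n| (max |r n - r' n| |t n - t' n|) ≤ _
  generalize Ed x r t x' r' t' (n + 1) = E at *
  generalize Ed x r t x' r' t' (n - 1) = E' at *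
  have hbE : b * E ≤ E := mul_le_of_le_one_left hE hb1.le
  have hbE0 : 0 ≤ b * E := mul_nonneg hb0.le hE
  have hbE' : 0 ≤ b * E' := mul_nonneg hb0.le hE'
  have hM : 0 ≤ E + b * E' + eps * dist a a' := by linarith
  rcases hs : s n with c | i | v
  · have hs' : s' n = .p c := by rw [← hn, hs]
    have w1 := hx.plW n c hs
    have w2 := hx'.plW n c hs'
    obtain ⟨q, q1, -, q3⟩ := IB.dd_pl F ha c w1 w2
    have p0 := F.pa0 a a' ha ha' c (x' n) (IB.W_sub_Wp _ w2)
    have p1 := F.pa1 a a' ha ha' (.p c) (x' n) (IB.W_sub_Wp _ w2)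
    have q4 := (abs_le.1 q3).1
    have q5 := c.sl_lo
    have q6 : 3 * 2 ^ 18 - 1 ≤ q := by linarith
    have q7 : q * (x n - x' n) = (x (n + 1) - x' (n + 1)) + b * (x (n - 1) - x' (n - 1)) -
        (F.P a (x' n) - F.P a' (x' n)) := by
      rw [← q1, hx.plx n c hs, hx'.plx n c hs']
      ring
    have q8 : (3 * 2 ^ 18 - 1) * |x n - x' n| ≤ E + b * E' + eps * dist a a' := by
      calc (3 * 2 ^ 18 - 1) * |x n - x' n| ≤ q * |x n - x' n| :=
            mul_le_mul_of_nonneg_right q6 (abs_nonneg _)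
        _ = |q * (x n - x' n)| := by
            rw [abs_mul, abs_of_pos (lt_of_lt_of_le (by norm_num) q6)]
        _ ≤ |x (n + 1) - x' (n + 1)| + |b * (x (n - 1) - x' (n - 1))| +
            |F.P a (x' n) - F.P a' (x' n)| := by
            rw [q7]
            refine (abs_sub _ _).trans ?_
            exact add_le_add (abs_add_le _ _) le_rfl
        _ ≤ _ := by
            rw [abs_mul, abs_of_pos hb0]
            have := mul_le_mul_of_nonneg_left v1 hb0.le
            linarith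
    have q9 := ineq_fine q8 hM rfl
    have q10 : |x n - x' n| ≤ E + b * E' + eps * dist a a' := by
      refine le_trans ?_ q8
      exact le_mul_of_one_le_left (abs_nonneg _) (by norm_num)
    -- derivative
    obtain ⟨w, hw, hw2⟩ := IB.mvt_P1 F a (x n) (x' n)
    have hwW : w ∈ (Lt.p c).W := IB.W_uIcc w1 w2 hw
    have d1 := F.pl2 a ha c w (IB.W_sub_Wp _ hwW)
    have d2 : |F.P1 a (x n) - F.P1 a (x' n)| ≤ E + b * E' + eps * dist a a' := by
      rw [hw2, abs_mul]
      refine le_trans ?_ q10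
      exact mul_le_of_le_one_left (abs_nonneg _) (d1.trans he1)
    have d3 : |F.P1 a' (x' n) - F.P1 a (x n)| ≤
        (E + b * E' + eps * dist a a') + eps * dist a a' := by
      have h1 : F.P1 a' (x' n) - F.P1 a (x n) =
          -(F.P1 a (x n) - F.P1 a (x' n)) - (F.P1 a (x' n) - F.P1 a' (x' n)) := by ring
      rw [h1]
      refine (abs_sub _ _).trans ?_
      rw [abs_neg]
      exact add_le_add d2 p1
    refine max_le q9 (max_le ?_ ?_)
    · refine ineq_frac (hx.rb n).1 (hx.rb n).2 (hx'.rb n).1 (hx'.rb n).2 (hx.plr n c hs)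
        (hx'.plr n c hs') (D := (E + b * E' + eps * dist a a') + eps * dist a a' + b * E) ?_ ?_
      · have h1 : F.P1 a' (x' n) - b * r' (n + 1) - (F.P1 a (x n) - b * r (n + 1)) =
            (F.P1 a' (x' n) - F.P1 a (x n)) + b * (r (n + 1) - r' (n + 1)) := by ring
        rw [h1]
        refine (abs_add_le _ _).trans (add_le_add d3 ?_)
        rw [abs_mul, abs_of_pos hb0]
        exact mul_le_mul_of_nonneg_left u2 hb0.le
      · linarith
    · refine ineq_frac (hx.tb n).1 (hx.tb n).2 (hx'.tb n).1 (hx'.tb n).2 (hx.plt n c hs)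
        (hx'.plt n c hs') (D := (E + b * E' + eps * dist a a') + eps * dist a a' + b * E') ?_ ?_
      · have h1 : F.P1 a' (x' n) - b * t' (n - 1) - (F.P1 a (x n) - b * t (n - 1)) =
            (F.P1 a' (x' n) - F.P1 a (x n)) + b * (t (n - 1) - t' (n - 1)) := by ring
        rw [h1]
        refine (abs_add_le _ _).trans (add_le_add d3 ?_)
        rw [abs_mul, abs_of_pos hb0]
        exact mul_le_mul_of_nonneg_left v3 hb0.le
      · linarith
  · have hs' : s' n = .d i := by rw [← hn, hs]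
    have w1 := hx.foW n i hs
    have w2 := hx'.foW n i hs'
    have p1 := F.pa1 a a' ha ha' (.d i) (x' n) (IB.W_sub_Wp _ w2)
    have f1 := IB.fo_slope F ha i w1 w2
    have f2 : F.P1 a (x n) - F.P1 a (x' n) =
        b * ((r (n + 1) - r' (n + 1)) + (t (n - 1) - t' (n - 1))) -
          (F.P1 a (x' n) - F.P1 a' (x' n)) := by
      rw [hx.fox n i hs, hx'.fox n i hs']
      ring
    have f3 : |F.P1 a (x n) - F.P1 a (x' n)| ≤ E + b * E' + eps * dist a a' := by
      rw [f2]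
      refine (abs_sub _ _).trans (add_le_add ?_ p1)
      rw [abs_mul, abs_of_pos hb0]
      calc b * |(r (n + 1) - r' (n + 1)) + (t (n - 1) - t' (n - 1))| ≤ b * (E + E') :=
            mul_le_mul_of_nonneg_left ((abs_add_le _ _).trans (add_le_add u2 v3)) hb0.le
        _ ≤ E + b * E' := by linarith
    have f4 : (3 * 2 ^ 18 - 1) * |x n - x' n| ≤ E + b * E' + eps * dist a a' := by
      refine le_trans ?_ (f1.trans f3)
      refine mul_le_mul_of_nonneg_right ?_ (abs_nonneg _)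
      have : (3 : ℝ) * 2 ^ 18 - 1 ≤ 2 ^ 21 - 1 := by norm_num
      linarith
    have f5 := ineq_fine f4 hM rfl
    obtain ⟨g1, g2⟩ := hx.fort n i hs
    obtain ⟨g3, g4⟩ := hx'.fort n i hs'
    rw [g1, g2, g3, g4, sub_self, abs_zero, max_self]
    exact max_le f5 (mul_nonneg (by norm_num) hM)
  · have hs' : s' n = .pin v := by rw [← hn, hs]
    obtain ⟨g0, g1, g2⟩ := hx.pin n v hs
    obtain ⟨g5, g3, g4⟩ := hx'.pin n v hs'
    rw [g0, g1, g2, g5, g3, g4, sub_self, sub_self, abs_zero, max_self, max_self]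
    exact mul_nonneg (by norm_num) hM

end Pool.Agent.WildW
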