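import Pool.Agent.Lib.MP_3dbc4a_an_WI.Barr

/-!
# MP_3dbc4a_an, project W, block I: barrier lemma on half lines
-/

set_option autoImplicit false

open Filter Set
open scoped Topology

namespace Pool.Agent.WildW

private theorem lim_aux {x y K q : ℝ} (hq0 : 0 ≤ q) (hq1 : q < 1)
    (h : ∀ n : ℕ, x ≤ K * q ^ n + y) : x ≤ y := by
  have h1 : Tendsto (fun n : ℕ => K * q ^ n + y) atTop (𝓝 (K * 0 + y)) :=
    ((tendsto_pow_atTop_nhds_zero_of_lt_one hq0 hq1).const_mul K).add_const y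
  rw [mul_zero, zero_add] at h1
  exact ge_of_tendsto' h1 h

/-- the inequality holds everywhere to the left of `N₂` (`N₁ → -∞` in `barrier`, `E ≤ K`) -/
theorem barrier_left {E : ℤ → ℝ} {N₂ : ℤ} {B c K : ℝ} (hB : 0 ≤ B) (hc : 0 ≤ c)
    (hE : ∀ m, 0 ≤ E m) (hK : ∀ m, E m ≤ K)
    (hI : ∀ m, m < N₂ → E m ≤ 7 / 10 / 2 ^ 19 * (E (m + 1) + b * E (m - 1) + c))
    (h2 : E N₂ ≤ B) {m : ℤ} (hm2 : m ≤ N₂) :
    E m ≤ B * (1 / 2 ^ 19) ^ (N₂ - m).toNat + c := by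
  have hK0 : 0 ≤ K := (hE 0).trans (hK 0)
  refine lim_aux (K := K) (q := 1 / 2 ^ 119) (by norm_num) (by norm_num) fun n => ?_
  have h := barrier (N₁ := m - n) (N₂ := N₂) (A := K) (m := m) hK0 hB hc hE
    (fun m' _ h' => hI m' h') (hK _) h2 (by omega) hm2
  have h3 : (m - (m - (n : ℤ))).toNat = n := by omega
  rw [h3] at h
  linarith

/-- the inequality holds everywhere to the right of `N₁` -/
theorem barrier_right {E : ℤ → ℝ} {N₁ : ℤ} {A c K : ℝ} (hA : 0 ≤ A) (hc : 0 ≤ c)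
    (hE : ∀ m, 0 ≤ E m) (hK : ∀ m, E m ≤ K)
    (hI : ∀ m, N₁ < m → E m ≤ 7 / 10 / 2 ^ 19 * (E (m + 1) + b * E (m - 1) + c))
    (h1 : E N₁ ≤ A) {m : ℤ} (hm1 : N₁ ≤ m) :
    E m ≤ A * (1 / 2 ^ 119) ^ (m - N₁).toNat + c := by
  have hK0 : 0 ≤ K := (hE 0).trans (hK 0)
  refine lim_aux (K := K) (q := 1 / 2 ^ 19) (by norm_num) (by norm_num) fun n => ?_
  have h := barrier (N₁ := N₁) (N₂ := m + n) (B := K) (m := m) hA hK0 hc hE
    (fun m' h' _ => hI m' h') h1 (hK _) hm1 (by omega)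
  have h3 : (m + (n : ℤ) - m).toNat = n := by omega
  rw [h3] at h
  linarith

/-- the inequality holds everywhere -/
theorem barrier_all {E : ℤ → ℝ} {c K : ℝ} (hc : 0 ≤ c)
    (hE : ∀ m, 0 ≤ E m) (hK : ∀ m, E m ≤ K)
    (hI : ∀ m, E m ≤ 7 / 10 / 2 ^ 19 * (E (m + 1) + b * E (m - 1) + c)) (m : ℤ) :
    E m ≤ c := by
  have hK0 : 0 ≤ K := (hE 0).trans (hK 0)
  refine lim_aux (K := K) (q := 1 / 2 ^ 19) (by norm_num) (by norm_num) fun n => ?_
  have h := barrier_left (N₂ := m + n) (B := K) (m := m) hK0 hc hE hK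
    (fun m' _ => hI m') (hK _) (by omega)
  have h3 : (m + (n : ℤ) - m).toNat = n := by omega
  rw [h3] at h
  exact h

end Pool.Agent.WildW
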