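import Pool.Agent.Lib.MP_3dbc4a_an_WI.Mvt
import Pool.Agent.Lib.MP_3dbc4a_an_WP.Win

/-!
# MP_3dbc4a_an, project W, block I: positions of a solution
-/

set_option autoImplicit false

open Filter Set
open scoped Topology

namespace Pool.Agent.WildW

/-- positions of a solution (`Wp_sub` for letters, `Adm` for pins) -/
theorem IsSol.mem (F : Fam) {a : Fin 8 → ℝ} {s : ℤ → Sym} (hs : Adm s) {x r t : ℤ → ℝ}
    (hx : IsSol F a s x r t) (n : ℤ) : -(4 * h) ≤ x n ∧ x n ≤ 3 + h := by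
  have h0 := h_pos
  have key : ∀ c : Lt, x n ∈ c.W → -(4 * h) ≤ x n ∧ x n ≤ 3 + h := fun c hc ↦ by
    have := Wp_sub c (IB.W_sub_Wp c hc)
    exact ⟨this.1, by linarith [this.2]⟩
  cases hsn : s n with
  | p c => exact key _ (hx.plW n c hsn)
  | d i => exact key _ (hx.foW n i hsn)
  | pin v =>
    rw [(hx.pin n v hsn).1]
    exact hs.2 n v hsn

end Pool.Agent.WildW
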