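import Pool.Agent.Lib.MP_3dbc4a_an_WP.Num

/-!
# MP_3dbc4a_an, project W, block I: mean value theorems on the windows
-/

set_option autoImplicit false

open Filter Set
open scoped Topology

namespace Pool.Agent.WildW.IB

theorem eps_le_one : eps ≤ 1 := by
  unfold eps
  rw [div_le_one (by positivity)]
  exact one_le_pow₀ (by norm_num)

theorem W_sub_Wp (c : Lt) : c.W ⊆ c.Wp := by
  intro x hx
  have h1 := h_pos
  exact ⟨by have := hx.1; linarith, by have := hx.2; linarith⟩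

/-- mean value theorem for `P` -/
theorem mvt_P (F : Fam) (a : Fin 8 → ℝ) (x y : ℝ) :
    ∃ z ∈ uIcc x y, F.P a x - F.P a y = F.P1 a z * (x - y) := by
  rcases lt_trichotomy x y with h1 | h1 | h1
  · obtain ⟨z, hz, hz2⟩ := exists_hasDerivAt_eq_slope (F.P a) (F.P1 a) h1
      (fun t _ => (F.hP a t).continuousAt.continuousWithinAt) (fun t _ => F.hP a t)
    refine ⟨z, ?_, ?_⟩
    · rw [uIcc_of_le h1.le]
      exact Ioo_subset_Icc_self hz
    · have h2 : y - x ≠ 0 := by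
        intro h3
        linarith
      rw [hz2]
      field_simp
      ring
  · subst h1
    exact ⟨x, by simp, by ring⟩
  · obtain ⟨z, hz, hz2⟩ := exists_hasDerivAt_eq_slope (F.P a) (F.P1 a) h1
      (fun t _ => (F.hP a t).continuousAt.continuousWithinAt) (fun t _ => F.hP a t)
    refine ⟨z, ?_, ?_⟩
    · rw [uIcc_of_ge h1.le]
      exact Ioo_subset_Icc_self hz
    · have h2 : x - y ≠ 0 := by
        intro h3
        linarith
      rw [hz2]
      field_simp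

/-- mean value theorem for `P1` -/
theorem mvt_P1 (F : Fam) (a : Fin 8 → ℝ) (x y : ℝ) :
    ∃ z ∈ uIcc x y, F.P1 a x - F.P1 a y = F.P2 a z * (x - y) := by
  rcases lt_trichotomy x y with h1 | h1 | h1
  · obtain ⟨z, hz, hz2⟩ := exists_hasDerivAt_eq_slope (F.P1 a) (F.P2 a) h1
      (fun t _ => (F.hP1 a t).continuousAt.continuousWithinAt) (fun t _ => F.hP1 a t)
    refine ⟨z, ?_, ?_⟩
    · rw [uIcc_of_le h1.le]
      exact Ioo_subset_Icc_self hz
    · have h2 : y - x ≠ 0 := by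
        intro h3
        linarith
      rw [hz2]
      field_simp
      ring
  · subst h1
    exact ⟨x, by simp, by ring⟩
  · obtain ⟨z, hz, hz2⟩ := exists_hasDerivAt_eq_slope (F.P1 a) (F.P2 a) h1
      (fun t _ => (F.hP1 a t).continuousAt.continuousWithinAt) (fun t _ => F.hP1 a t)
    refine ⟨z, ?_, ?_⟩
    · rw [uIcc_of_ge h1.le]
      exact Ioo_subset_Icc_self hz
    · have h2 : x - y ≠ 0 := by
        intro h3
        linarith
      rw [hz2]
      field_simp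

theorem W_uIcc {c : Lt} {x y z : ℝ} (hx : x ∈ c.W) (hy : y ∈ c.W) (hz : z ∈ uIcc x y) :
    z ∈ c.W := by
  have h1 : uIcc x y ⊆ Icc c.lo c.hi := uIcc_subset_Icc hx hy
  exact h1 hz

theorem abs_sub_le_of_mem_uIcc {x y z : ℝ} (hz : z ∈ uIcc x y) : |z - x| ≤ |x - y| := by
  rcases le_total x y with h1 | h1
  · rw [uIcc_of_le h1] at hz
    rw [abs_of_nonneg (by linarith [hz.1]), abs_of_nonpos (by linarith)]
    linarith [hz.2]
  · rw [uIcc_of_ge h1] at hz
    rw [abs_of_nonpos (by linarith [hz.2]), abs_of_nonneg (by linarith)]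
    linarith [hz.1]

/-- divided differences on the window of a plain letter (mean value theorem for `P` and `P1`) -/
theorem dd_pl (F : Fam) {a : Fin 8 → ℝ} (ha : Cube a) (c : Pl) {x y : ℝ}
    (hx : x ∈ (Lt.p c).W) (hy : y ∈ (Lt.p c).W) :
    ∃ q : ℝ, F.P a x - F.P a y = q * (x - y) ∧ |q - F.P1 a x| ≤ eps * |x - y| ∧
      |q - c.sl| ≤ eps := by
  obtain ⟨z, hz, hz2⟩ := mvt_P F a x y
  have hzW : z ∈ (Lt.p c).W := W_uIcc hx hy hz
  refine ⟨F.P1 a z, hz2, ?_, F.pl1 a ha c z (W_sub_Wp _ hzW)⟩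
  obtain ⟨w, hw, hw2⟩ := mvt_P1 F a z x
  have hwW : w ∈ (Lt.p c).W := W_uIcc hzW hx hw
  have h3 := F.pl2 a ha c w (W_sub_Wp _ hwW)
  rw [hw2, abs_mul]
  exact mul_le_mul h3 (abs_sub_le_of_mem_uIcc hz) (abs_nonneg _) eps_pos.le

/-- slope of `P1` on the window of a fold -/
theorem fo_slope (F : Fam) {a : Fin 8 → ℝ} (ha : Cube a) (i : Fin 8) {x y : ℝ}
    (hx : x ∈ (Lt.d i).W) (hy : y ∈ (Lt.d i).W) :
    (2 ^ 21 - eps) * |x - y| ≤ |F.P1 a x - F.P1 a y| := by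
  obtain ⟨w, hw, hw2⟩ := mvt_P1 F a x y
  have hwW : w ∈ (Lt.d i).W := W_uIcc hx hy hw
  have h3 := F.fo2 a ha i w (W_sub_Wp _ hwW)
  rw [hw2, abs_mul]
  refine mul_le_mul_of_nonneg_right ?_ (abs_nonneg _)
  have h4 := abs_le.1 h3
  have h5 : F.P2 a w ≤ -(2 ^ 21 - eps) := by linarith [h4.2]
  calc (2 : ℝ) ^ 21 - eps ≤ -F.P2 a w := by linarith
    _ ≤ |F.P2 a w| := neg_le_abs _

/-- `P1` is antitone on the window of a fold -/
theorem fo_anti (F : Fam) {a : Fin 8 → ℝ} (ha : Cube a) (i : Fin 8) {x y : ℝ}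
    (hx : x ∈ (Lt.d i).W) (hy : y ∈ (Lt.d i).W) (hxy : x ≤ y) : F.P1 a y ≤ F.P1 a x := by
  obtain ⟨w, hw, hw2⟩ := mvt_P1 F a x y
  have hwW : w ∈ (Lt.d i).W := W_uIcc hx hy hw
  have h3 := F.fo2 a ha i w (W_sub_Wp _ hwW)
  have h4 := abs_le.1 h3
  have h6 := eps_le_one
  have h5 : F.P2 a w ≤ 0 := by
    have : (1 : ℝ) ≤ 2 ^ 21 := by norm_num
    linarith [h4.2]
  have h7 : 0 ≤ F.P2 a w * (x - y) := mul_nonneg_of_nonpos_of_nonpos h5 (by linarith)
  linarith

/-- divided differences on the window of a fold -/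
theorem dd_fo (F : Fam) {a : Fin 8 → ℝ} (ha : Cube a) (i : Fin 8) {x y : ℝ}
    (hx : x ∈ (Lt.d i).W) (hy : y ∈ (Lt.d i).W) :
    ∃ q : ℝ, F.P a x - F.P a y = q * (x - y) ∧ min (F.P1 a x) (F.P1 a y) ≤ q ∧
      q ≤ max (F.P1 a x) (F.P1 a y) := by
  obtain ⟨z, hz, hz2⟩ := mvt_P F a x y
  have hzW : z ∈ (Lt.d i).W := W_uIcc hx hy hz
  refine ⟨F.P1 a z, hz2, ?_, ?_⟩
  · rcases le_total x y with h1 | h1
    · rw [uIcc_of_le h1] at hz
      exact (min_le_right _ _).trans (fo_anti F ha i hzW hy hz.2)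
    · rw [uIcc_of_ge h1] at hz
      exact (min_le_left _ _).trans (fo_anti F ha i hzW hx hz.2)
  · rcases le_total x y with h1 | h1
    · rw [uIcc_of_le h1] at hz
      exact (fo_anti F ha i hx hzW hz.1).trans (le_max_left _ _)
    · rw [uIcc_of_ge h1] at hz
      exact (fo_anti F ha i hy hzW hz.1).trans (le_max_right _ _)

end Pool.Agent.WildW.IB
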