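import Pool.Agent.Lib.MP_3dbc4a_an_WI.Ex
import Pool.Agent.Lib.MP_3dbc4a_an_WI.Ineq
import Pool.Agent.Lib.MP_3dbc4a_an_WI.Lim
import Pool.Agent.Lib.MP_3dbc4a_an_WI.Mem

/-!
# MP_3dbc4a_an, project W, block I: the chosen solution, uniqueness
-/

set_option autoImplicit false

open Filter Set
open scoped Topology

namespace Pool.Agent.WildW

/-- the difference of two solutions is at most `4` -/
theorem Ed_le_four (F : Fam) {a a' : Fin 8 → ℝ} {s s' : ℤ → Sym} (hs : Adm s) (hs' : Adm s')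
    {x r t x' r' t' : ℤ → ℝ} (hx : IsSol F a s x r t) (hx' : IsSol F a' s' x' r' t') (n : ℤ) :
    0 ≤ Ed x r t x' r' t' n ∧ Ed x r t x' r' t' n ≤ 4 := by
  have h1 := hx.mem F hs n
  have h2 := hx'.mem F hs' n
  have h3 := hx.rb n
  have h4 := hx'.rb n
  have h5 := hx.tb n
  have h6 := hx'.tb n
  have hh : h ≤ 1 / 100 := h_hi.trans (by norm_num)
  have hq : (1 : ℝ) / 2 ^ 19 ≤ 1 := by norm_num
  refine ⟨(abs_nonneg _).trans (le_max_left _ _), max_le ?_ (max_le ?_ ?_)⟩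
  · rw [abs_le]
    constructor <;> linarith
  · rw [abs_le]
    constructor <;> linarith
  · rw [abs_le]
    constructor <;> linarith

/-- **I1** the chosen solution is a solution (`exists_sol`, `sol`). -/
theorem isSol_sol (F : Fam) {a : Fin 8 → ℝ} (ha : Cube a) {s : ℤ → Sym} (hs : Adm s) :
    IsSol F a s (xs F a s) (rs F a s) (ts F a s) := by
  have h1 : ∃ X : (ℤ → ℝ) × (ℤ → ℝ) × (ℤ → ℝ), IsSol F a s X.1 X.2.1 X.2.2 := by
    obtain ⟨x, r, t, hx⟩ := exists_sol F ha hs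
    exact ⟨(x, r, t), hx⟩
  have h2 : sol F a s = h1.choose := by
    unfold sol
    rw [dif_pos h1]
  unfold xs rs ts
  rw [h2]
  exact h1.choose_spec

/-- **I4** uniqueness (`main_ineq` at all indices with `a = a'`, `barrier_all` with `c = 0`). -/
theorem sol_unique (F : Fam) {a : Fin 8 → ℝ} (ha : Cube a) {s : ℤ → Sym} (hs : Adm s)
    {x r t : ℤ → ℝ} (hx : IsSol F a s x r t) :
    x = xs F a s ∧ r = rs F a s ∧ t = ts F a s := by
  have hy := isSol_sol F ha hs
  have h1 : ∀ n, Ed x r t (xs F a s) (rs F a s) (ts F a s) n ≤ 0 := fun n ↦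
    barrier_all (K := 4) le_rfl (fun m ↦ (Ed_le_four F hs hs hx hy m).1)
      (fun m ↦ (Ed_le_four F hs hs hx hy m).2) (fun m ↦ by
        have := main_ineq F ha ha hx hy (n := m) rfl
        rwa [dist_self, mul_zero] at this) n
  have h2 : ∀ n, |x n - xs F a s n| ≤ 0 := fun n ↦ (le_max_left _ _).trans (h1 n)
  have h3 : ∀ n, |r n - rs F a s n| ≤ 0 := fun n ↦
    ((le_max_left _ _).trans (le_max_right _ _)).trans (h1 n)
  have h4 : ∀ n, |t n - ts F a s n| ≤ 0 := fun n ↦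
    ((le_max_right _ _).trans (le_max_right _ _)).trans (h1 n)
  refine ⟨funext fun n ↦ ?_, funext fun n ↦ ?_, funext fun n ↦ ?_⟩
  · exact sub_eq_zero.1 (abs_eq_zero.1 (le_antisymm (h2 n) (abs_nonneg _)))
  · exact sub_eq_zero.1 (abs_eq_zero.1 (le_antisymm (h3 n) (abs_nonneg _)))
  · exact sub_eq_zero.1 (abs_eq_zero.1 (le_antisymm (h4 n) (abs_nonneg _)))

end Pool.Agent.WildW
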